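import Mathlib
import Pool.Agent.R831.LexCoc

/-!
# MP_805877_ag: squarefree lexsegment ideals of depth `q - 1`

For every field `K`, `n`, `q ≥ 2` and squarefree monomials `u ∋ x_1`, `v ∌ x_1` of degree `q`,
the depth of `S ⧸ (L(u, v))` equals `q - 1` if and only if `w₀ ≥ v`.

The variables are `x_0, …, x_n`; a squarefree monomial is the set of its variables.
-/

set_option autoImplicit false

namespace Pool.Agent.Results.MP_805877_ag.LexDepth

open MvPolynomial

/-- The depth of `K[x_0, …, x_{n-1}] ⧸ J`: the supremum of the lengths of the regular sequences on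
`K[x_0, …, x_{n-1}] ⧸ J` all of whose terms lie in `𝔪 = (x_0, …, x_{n-1})`. -/
noncomputable def depthQuot {K : Type*} [Field K] {n : ℕ}
    (J : Ideal (MvPolynomial (Fin n) K)) : ℕ∞ :=
  ⨆ (rs : List (MvPolynomial (Fin n) K))
    (_ : (∀ x ∈ rs, x ∈ Ideal.span (Set.range (X : Fin n → MvPolynomial (Fin n) K))) ∧
      RingTheory.Sequence.IsRegular (MvPolynomial (Fin n) K ⧸ J) rs), (rs.length : ℕ∞)

/-- The squarefree monomial `∏_{j ∈ A} x_j`. -/
noncomputable def sqMon (K : Type*) [Field K] {n : ℕ} (A : Finset (Fin n)) :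
    MvPolynomial (Fin n) K := ∏ j ∈ A, X j

/-- `x_A >_lex x_B` for squarefree monomials with sets of variables `A`, `B`: the first variable
whose exponents in the two monomials differ divides `x_A`. -/
def LexGT {n : ℕ} (A B : Finset (Fin n)) : Prop :=
  ∃ s ∈ A, s ∉ B ∧ ∀ t < s, (t ∈ A ↔ t ∈ B)

/-- `x_A ≥_lex x_B` -/
def LexGE {n : ℕ} (A B : Finset (Fin n)) : Prop := A = B ∨ LexGT A B

/-- The ideal `(L(u, v))` generated by the squarefree monomials `w` of degree `q` with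
`u ≥_lex w ≥_lex v`. -/
noncomputable def lexIdeal (K : Type*) [Field K] {n : ℕ} (q : ℕ) (u v : Finset (Fin n)) :
    Ideal (MvPolynomial (Fin n) K) :=
  Ideal.span {f | ∃ A : Finset (Fin n), A.card = q ∧ LexGE u A ∧ LexGE A v ∧ f = sqMon K A}

/-- For `u = x_0 x_{i_2} ⋯ x_{i_q}`, the set of variables of
`w₀ = x_{i_2 - 1} ⋯ x_{i_q - 1} x_n` (variables `x_0, …, x_n`). -/
def w0 {n : ℕ} (u : Finset (Fin (n + 1))) : Finset (Fin (n + 1)) :=
  Finset.univ.filter fun s => s = Fin.last n ∨ ∃ j ∈ u, (j : ℕ) = s + 1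

section

open Pool.Agent.R831.Koszul (wtA wti exi mdeg Coch dd Ex d1)

variable {K : Type*} [Field K] {n : ℕ}

lemma lexGE_iff (A B : Finset (Fin (n + 1))) : LexGE A B ↔ wtA B ≤ wtA A :=
  Pool.Agent.R831.Koszul.lexGE_iff A B

/-- the exponents of the monomials of `(L(u,v))` -/
def Bad (q : ℕ) (u v : Finset (Fin (n + 1))) (b : Fin (n + 1) →₀ ℕ) : Prop :=
  ∃ A : Finset (Fin (n + 1)), A.card = q ∧ LexGE u A ∧ LexGE A v ∧ ∀ j ∈ A, 1 ≤ b j

lemma sqMon_eq (A : Finset (Fin (n + 1))) :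
    sqMon K A = monomial (∑ j ∈ A, Finsupp.single j 1) 1 := by
  classical
  unfold sqMon
  induction A using Finset.induction_on with
  | empty => simp
  | insert a A ha ih =>
    rw [Finset.prod_insert ha, Finset.sum_insert ha, ih, X, monomial_mul, one_mul]

lemma indic_apply (A : Finset (Fin (n + 1))) (j : Fin (n + 1)) :
    (∑ j ∈ A, Finsupp.single j 1 : Fin (n + 1) →₀ ℕ) j = if j ∈ A then 1 else 0 := by
  rw [Finsupp.finsetSum_apply]
  simp [Finsupp.single_apply]

lemma mem_lexIdeal (q : ℕ) (u v : Finset (Fin (n + 1))) (f : MvPolynomial (Fin (n + 1)) K) :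
    f ∈ lexIdeal K q u v ↔ ∀ b, coeff b f ≠ 0 → Bad q u v b := by
  have h1 : {f | ∃ A : Finset (Fin (n + 1)), A.card = q ∧ LexGE u A ∧ LexGE A v ∧ f = sqMon K A}
      = (fun e => monomial e (1 : K)) '' {e | ∃ A : Finset (Fin (n + 1)), A.card = q ∧
        LexGE u A ∧ LexGE A v ∧ e = ∑ j ∈ A, Finsupp.single j 1} := by
    ext f
    constructor
    · rintro ⟨A, h1, h2, h3, rfl⟩
      exact ⟨_, ⟨A, h1, h2, h3, rfl⟩, (sqMon_eq A).symm⟩
    · rintro ⟨e, ⟨A, h1, h2, h3, rfl⟩, rfl⟩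
      exact ⟨A, h1, h2, h3, (sqMon_eq A).symm⟩
  rw [lexIdeal, h1, mem_ideal_span_monomial_image]
  refine forall_congr' fun b => ?_
  rw [mem_support_iff]
  refine imp_congr_right fun _ => ?_
  constructor
  · rintro ⟨e, ⟨A, h1, h2, h3, rfl⟩, hle⟩
    refine ⟨A, h1, h2, h3, fun j hj => ?_⟩
    have := hle j
    rw [indic_apply, if_pos hj] at this
    exact this
  · rintro ⟨A, h1, h2, h3, h4⟩
    refine ⟨_, ⟨A, h1, h2, h3, rfl⟩, fun j => ?_⟩
    rw [indic_apply]
    split_ifs with hj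
    · exact h4 j hj
    · exact Nat.zero_le _

lemma bad_sq (q : ℕ) (u v : Finset (Fin (n + 1))) (b : Fin (n + 1) →₀ ℕ) (l : Fin (n + 1))
    (hl : 1 ≤ b l) (h : Bad q u v (b + Finsupp.single l 1)) : Bad q u v b := by
  obtain ⟨A, h1, h2, h3, h4⟩ := h
  refine ⟨A, h1, h2, h3, fun j hj => ?_⟩
  by_cases hjl : l = j
  · exact hjl ▸ hl
  · have := h4 j hj
    rw [Finsupp.add_apply, Finsupp.single_apply, if_neg hjl, add_zero] at this
    exact this

lemma bad_deg (q : ℕ) (u v : Finset (Fin (n + 1))) (b : Fin (n + 1) →₀ ℕ)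
    (h : Bad q u v b) : q ≤ ∑ j, b j := by
  obtain ⟨A, h1, -, -, h4⟩ := h
  calc q = ∑ j ∈ A, 1 := by simp [h1]
    _ ≤ ∑ j ∈ A, b j := Finset.sum_le_sum h4
    _ ≤ ∑ j, b j := Finset.sum_le_sum_of_subset (Finset.subset_univ _)

lemma wti_eq {p : ℕ} (i : Fin p → Fin (n + 1)) :
    wti i = ∑ j, exi i j * 2 ^ (n - (j : ℕ)) := by
  simp only [wti, exi, Finsupp.finsetSum_apply, Finset.sum_mul]
  rw [Finset.sum_comm]
  refine Finset.sum_congr rfl fun k _ => ?_
  simp [Finsupp.single_apply]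

/-- A tuple whose monomial lies in the ideal. -/
lemma tuple_of_bad {p : ℕ} (u v : Finset (Fin (n + 1))) (i : Fin (p + 1) → Fin (n + 1))
    (h : Bad (p + 1) u v (exi i)) :
    Function.Injective i ∧ wtA v ≤ wti i ∧ wti i ≤ wtA u := by
  classical
  obtain ⟨A, h1, h2, h3, h4⟩ := h
  have hsum := Pool.Agent.R831.Koszul.sum_exi i
  have heq : ∀ j, exi i j = if j ∈ A then 1 else 0 := by
    have hle : ∀ j ∈ Finset.univ, (if j ∈ A then 1 else 0) ≤ exi i j := by
      intro j _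
      split_ifs with hj
      · exact h4 j hj
      · exact Nat.zero_le _
    have hs : ∑ j, (if j ∈ A then 1 else 0) = ∑ j, exi i j := by
      rw [hsum]
      simp [h1]
    intro j
    exact ((Finset.sum_eq_sum_iff_of_le hle).mp hs j (Finset.mem_univ _)).symm
  have hw : wti i = wtA A := by
    rw [wti_eq, wtA]
    simp only [heq, ite_mul, one_mul, zero_mul]
    rw [Finset.sum_ite_mem, Finset.univ_inter]
  refine ⟨?_, ?_, ?_⟩
  · intro a b hab
    by_contra hne
    have h5 : 2 ≤ exi i (i a) := by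
      rw [exi, Finsupp.finsetSum_apply]
      calc 2 = ∑ k ∈ {a, b}, (Finsupp.single (i k) 1 : Fin (n + 1) →₀ ℕ) (i a) := by
            rw [Finset.sum_pair hne]
            simp [hab]
        _ ≤ _ := Finset.sum_le_sum_of_subset (Finset.subset_univ _)
    rw [heq] at h5
    split_ifs at h5 <;> omega
  · rw [hw]; exact (lexGE_iff A v).mp h3
  · rw [hw]; exact (lexGE_iff u A).mp h2

lemma bad_of_tuple {p : ℕ} (u v : Finset (Fin (n + 1))) (i : Fin (p + 1) → Fin (n + 1))
    (hi : Function.Injective i) (h1 : wtA v ≤ wti i) (h2 : wti i ≤ wtA u) :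
    Bad (p + 1) u v (exi i) := by
  classical
  have hw : wtA (Finset.univ.image i) = wti i := by
    rw [wtA, wti, Finset.sum_image]
    intro a _ b _ hab
    exact hi hab
  refine ⟨Finset.univ.image i, ?_, ?_, ?_, ?_⟩
  · rw [Finset.card_image_of_injective _ hi]; simp
  · rw [lexGE_iff, hw]; exact h2
  · rw [lexGE_iff, hw]; exact h1
  · intro j hj
    rw [Finset.mem_image] at hj
    obtain ⟨k, -, rfl⟩ := hj
    exact Pool.Agent.R831.Koszul.one_le_exi i k

/-- Cocycles of the ideal in low degrees have no bad multidegrees. -/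
lemma hpos_low {p q : ℕ} (hpq : p + 1 < q) (u v : Finset (Fin (n + 1)))
    (z : Coch (n + 1) (p + 1) (MvPolynomial (Fin (n + 1)) K)) (hz : ∀ i, z i ∈ lexIdeal K q u v)
    (i : Fin (p + 1) → Fin (n + 1)) (b : Fin (n + 1) →₀ ℕ) (hb : coeff b (z i) ≠ 0) :
    ∃ l, 1 ≤ mdeg i b l := by
  have h1 := bad_deg q u v b ((mem_lexIdeal q u v _).mp (hz i) b hb)
  have h2 := Pool.Agent.R831.Koszul.sum_exi i
  by_contra hcon
  push Not at hcon
  have h3 : ∑ j, b j ≤ ∑ j, exi i j := by
    refine Finset.sum_le_sum fun j _ => ?_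
    have : (b j : ℤ) - exi i j < 1 := hcon j
    omega
  omega

/-- Degree `q - 1`, when `w₀ < v`. -/
lemma hpos_top {p : ℕ} (u v : Finset (Fin (n + 1))) (hu : 0 ∈ u)
    (hwv : wtA (w0 u) < wtA v)
    (z : Coch (n + 1) (p + 1) (MvPolynomial (Fin (n + 1)) K))
    (hz : ∀ i, z i ∈ lexIdeal K (p + 1) u v)
    (hdz : dd (X : Fin (n + 1) → MvPolynomial (Fin (n + 1)) K) (MvPolynomial (Fin (n + 1)) K)
      (p + 1) z = 0)
    (i : Fin (p + 1) → Fin (n + 1)) (b : Fin (n + 1) →₀ ℕ) (hb : coeff b (z i) ≠ 0) :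
    ∃ l, 1 ≤ mdeg i b l := by
  classical
  let g : (Fin (p + 1) → Fin (n + 1)) → K := fun i => coeff (exi i) (z i)
  have hgz : ∀ i, g i ≠ 0 → Function.Injective i ∧ wtA v ≤ wti i ∧ wti i ≤ wtA u := fun i hi =>
    tuple_of_bad u v i ((mem_lexIdeal _ u v _).mp (hz i) _ hi)
  have hd : d1 K (n + 1) (p + 1) g = 0 := by
    funext i'
    have h1 := congrArg (coeff (exi i')) (congrFun hdz i')
    rw [Pool.Agent.R831.Koszul.coeff_dd, Pi.zero_apply, coeff_zero] at h1
    rw [Pool.Agent.R831.Koszul.dd_apply, Pi.zero_apply, ← h1]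
    refine Finset.sum_congr rfl fun k _ => ?_
    rw [if_pos (Pool.Agent.R831.Koszul.one_le_exi i' k), one_smul, smul_eq_mul]
    congr 1
    change coeff _ _ = _
    rw [Pool.Agent.R831.Koszul.exi_succAbove i' k, add_tsub_cancel_left]
  have hg0 : g = 0 := by
    refine Pool.Agent.R831.Koszul.cocycle_eq_zero g hd ?_ u hu ?_ ?_
    · intro i hi
      by_contra hne
      exact hi (hgz i hne).1
    · intro i hi
      by_contra hne
      have := (hgz i hne).2.2
      omega
    · intro i hi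
      by_contra hne
      have h1 := (hgz i hne).2.1
      have h2 : wtA (Pool.Agent.R831.Koszul.w0 u) < wtA v := hwv
      omega
  by_contra hcon
  push Not at hcon
  have h1 := bad_deg (p + 1) u v b ((mem_lexIdeal (p + 1) u v _).mp (hz i) b hb)
  have h2 := Pool.Agent.R831.Koszul.sum_exi i
  have h3 : ∀ j ∈ Finset.univ, b j ≤ exi i j := by
    intro j _
    have : (b j : ℤ) - exi i j < 1 := hcon j
    omega
  have h4 : ∑ j, b j = ∑ j, exi i j := le_antisymm (Finset.sum_le_sum h3) (by rw [h2]; exact h1)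
  have h5 : b = exi i := by
    ext j
    exact (Finset.sum_eq_sum_iff_of_le h3).mp h4 j (Finset.mem_univ _)
  rw [h5] at hb
  exact hb (congrFun hg0 i)

/-- Exactness below degree `q - 1`. -/
lemma ex_low {p q : ℕ} (hpq : p + 1 < q) (hpn : p < n + 1) (u v : Finset (Fin (n + 1))) :
    Ex (X : Fin (n + 1) → MvPolynomial (Fin (n + 1)) K)
      (MvPolynomial (Fin (n + 1)) K ⧸ lexIdeal K q u v) p :=
  Pool.Agent.R831.Koszul.ex_quot _ (Bad q u v) (mem_lexIdeal q u v) (bad_sq q u v) hpn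
    fun z hz _ i b hb => hpos_low hpq u v z hz i b hb

/-- Exactness in degree `q - 1` when `w₀ < v`. -/
lemma ex_top {p : ℕ} (hpn : p < n + 1) (u v : Finset (Fin (n + 1))) (hu : 0 ∈ u)
    (hwv : wtA (w0 u) < wtA v) :
    Ex (X : Fin (n + 1) → MvPolynomial (Fin (n + 1)) K)
      (MvPolynomial (Fin (n + 1)) K ⧸ lexIdeal K (p + 1) u v) p :=
  Pool.Agent.R831.Koszul.ex_quot _ (Bad (p + 1) u v) (mem_lexIdeal (p + 1) u v)
    (bad_sq (p + 1) u v) hpn fun z hz hdz i b hb => hpos_top u v hu hwv z hz hdz i b hb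

/-- Non-exactness in degree `q - 1` when `w₀ ≥ v`. -/
lemma not_ex {p : ℕ} (u v : Finset (Fin (n + 1))) (hu : 0 ∈ u) (hcard : u.card = p + 2)
    (hwv : wtA v ≤ wtA (w0 u)) :
    ¬ Ex (X : Fin (n + 1) → MvPolynomial (Fin (n + 1)) K)
      (MvPolynomial (Fin (n + 1)) K ⧸ lexIdeal K (p + 2) u v) (p + 1) := by
  classical
  intro hex
  obtain ⟨g, hdg, hg0, hg⟩ := Pool.Agent.R831.Koszul.exists_cocycle (K := K) u hu (p + 1) hcard
  let π : MvPolynomial (Fin (n + 1)) K →ₗ[MvPolynomial (Fin (n + 1)) K]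
    MvPolynomial (Fin (n + 1)) K ⧸ lexIdeal K (p + 2) u v := Algebra.linearMap _ _
  have hπ : ∀ f, π f = 0 ↔ f ∈ lexIdeal K (p + 2) u v := fun f => Ideal.Quotient.eq_zero_iff_mem
  let c : (Fin (p + 1) → Fin (n + 1)) → K := fun t => g (Fin.cons 0 t)
  have hdc : d1 K (n + 1) (p + 1) c = g := by
    funext i
    have h1 := Pool.Agent.R831.Koszul.dd_cons (fun _ : Fin (n + 1) => (1 : K)) K (p + 1) g 0 i
    rw [hdg, Pi.zero_apply, one_smul] at h1
    exact (sub_eq_zero.mp h1.symm).symm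
  let ζ : Coch (n + 1) (p + 1) (MvPolynomial (Fin (n + 1)) K) := fun t => monomial (exi t) (c t)
  have hdζ : ∀ i, dd (X : Fin (n + 1) → MvPolynomial (Fin (n + 1)) K)
      (MvPolynomial (Fin (n + 1)) K) (p + 1) ζ i = monomial (exi i) (g i) := by
    intro i
    rw [Pool.Agent.R831.Koszul.dd_apply, ← hdc, Pool.Agent.R831.Koszul.dd_apply, map_sum]
    refine Finset.sum_congr rfl fun k _ => ?_
    simp only [ζ, smul_eq_mul, one_mul]
    rw [Pool.Agent.R831.Koszul.exi_succAbove i k, X, monomial_mul, one_mul]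
    have h1 : ((-1 : MvPolynomial (Fin (n + 1)) K)) ^ (k : ℕ) = C ((-1 : K) ^ (k : ℕ)) := by simp
    rw [h1, C_mul_monomial]
  have hcoc : dd (X : Fin (n + 1) → MvPolynomial (Fin (n + 1)) K)
      (MvPolynomial (Fin (n + 1)) K ⧸ lexIdeal K (p + 2) u v) (p + 1) (fun t => π (ζ t)) = 0 := by
    rw [Pool.Agent.R831.Koszul.dd_map]
    funext i
    rw [Pi.zero_apply, hπ, hdζ, mem_lexIdeal]
    intro b hb
    rw [coeff_monomial] at hb
    split_ifs at hb with h
    · subst h
      obtain ⟨h1, h2, h3⟩ := hg i hb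
      exact bad_of_tuple u v i h1 (le_trans hwv h2) h3
    · exact absurd rfl hb
  obtain ⟨η', hη'⟩ := hex _ hcoc
  have := fun t => (Ideal.Quotient.mk_surjective (η' t) : ∃ a, π a = η' t)
  choose η hη using this
  obtain rfl : (fun t => π (η t)) = η' := funext hη
  rw [Pool.Agent.R831.Koszul.dd_map] at hη'
  have hmem : ∀ t, dd (X : Fin (n + 1) → MvPolynomial (Fin (n + 1)) K)
      (MvPolynomial (Fin (n + 1)) K) p η t - ζ t ∈ lexIdeal K (p + 2) u v := by
    intro t
    rw [← hπ, map_sub, sub_eq_zero]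
    exact congrFun hη' t
  have hc : c = d1 K (n + 1) p fun s => coeff (exi s) (η s) := by
    funext t
    have h0 : coeff (exi t) (dd (X : Fin (n + 1) → MvPolynomial (Fin (n + 1)) K)
      (MvPolynomial (Fin (n + 1)) K) p η t - ζ t) = 0 := by
      by_contra hne
      have h1 := bad_deg _ u v _ ((mem_lexIdeal (p + 2) u v _).mp (hmem t) _ hne)
      rw [Pool.Agent.R831.Koszul.sum_exi] at h1
      omega
    rw [coeff_sub, Pool.Agent.R831.Koszul.coeff_dd, sub_eq_zero] at h0
    have h2 : coeff (exi t) (ζ t) = c t := by simp [ζ]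
    rw [← h2, ← h0, Pool.Agent.R831.Koszul.dd_apply]
    refine Finset.sum_congr rfl fun k _ => ?_
    rw [if_pos (Pool.Agent.R831.Koszul.one_le_exi t k), one_smul, smul_eq_mul]
    congr 1
    rw [Pool.Agent.R831.Koszul.exi_succAbove t k, add_tsub_cancel_left]
  apply hg0
  rw [← hdc, hc, Pool.Agent.R831.Koszul.dd_dd]

end

section depth

variable {K : Type*} [Field K] {n : ℕ}

lemma top_ne_smul (I : Ideal (MvPolynomial (Fin n) K))
    (hI : I ≤ Ideal.span (Set.range (X : Fin n → MvPolynomial (Fin n) K)))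
    (J : Ideal (MvPolynomial (Fin n) K))
    (hJ : J ≤ Ideal.span (Set.range (X : Fin n → MvPolynomial (Fin n) K))) :
    (⊤ : Submodule (MvPolynomial (Fin n) K) (MvPolynomial (Fin n) K ⧸ I)) ≠ J • ⊤ := by
  have hm : ∀ f ∈ Ideal.span (Set.range (X : Fin n → MvPolynomial (Fin n) K)),
      constantCoeff f = 0 := by
    intro f hf
    have : Ideal.span (Set.range (X : Fin n → MvPolynomial (Fin n) K)) ≤
        RingHom.ker (constantCoeff (R := K) (σ := Fin n)) := by
      refine Ideal.span_le.mpr ?_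
      rintro _ ⟨i, rfl⟩
      simp [RingHom.mem_ker]
    exact this hf
  let ρ : (MvPolynomial (Fin n) K ⧸ I) →+* K :=
    Ideal.Quotient.lift I constantCoeff fun a ha => hm a (hI ha)
  intro h
  have h1 : (1 : MvPolynomial (Fin n) K ⧸ I) ∈
      J • (⊤ : Submodule (MvPolynomial (Fin n) K) (MvPolynomial (Fin n) K ⧸ I)) := by
    rw [← h]; trivial
  have h2 : ∀ y ∈ J • (⊤ : Submodule (MvPolynomial (Fin n) K) (MvPolynomial (Fin n) K ⧸ I)),
      ρ y = 0 := by
    intro y hy
    refine Submodule.smul_induction_on hy ?_ ?_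
    · intro r hr z _
      have : r • z = Ideal.Quotient.mk I r * z := rfl
      rw [this, map_mul]
      have : ρ (Ideal.Quotient.mk I r) = constantCoeff r := Ideal.Quotient.lift_mk _ _ _
      rw [this, hm r (hJ hr), zero_mul]
    · intro a b ha hb
      rw [map_add, ha, hb, add_zero]
  have := h2 1 h1
  rw [map_one] at this
  exact one_ne_zero this

open RingTheory.Sequence in
lemma le_depth (I : Ideal (MvPolynomial (Fin n) K))
    (hI : I ≤ Ideal.span (Set.range (X : Fin n → MvPolynomial (Fin n) K))) (r : ℕ)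
    (h : ∀ p < r, Pool.Agent.R831.Koszul.Ex (X : Fin n → MvPolynomial (Fin n) K)
      (MvPolynomial (Fin n) K ⧸ I) p) : (r : ℕ∞) ≤ depthQuot I := by
  obtain ⟨rs, h1, h2, h3⟩ := Pool.Agent.R831.Koszul.exists_isWeaklyRegular
    (X : Fin n → MvPolynomial (Fin n) K) r (MvPolynomial (Fin n) K ⧸ I) h
  rw [← h1]
  refine le_iSup₂_of_le rs ⟨h2, ⟨h3, ?_⟩⟩ le_rfl
  exact top_ne_smul I hI _ (Ideal.span_le.mpr h2)

open RingTheory.Sequence in
lemma depth_le (I : Ideal (MvPolynomial (Fin n) K)) (r : ℕ)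
    (h : ¬ Pool.Agent.R831.Koszul.Ex (X : Fin n → MvPolynomial (Fin n) K)
      (MvPolynomial (Fin n) K ⧸ I) r) : depthQuot I ≤ (r : ℕ∞) := by
  refine iSup₂_le ?_
  rintro rs ⟨h1, h2⟩
  rw [Nat.cast_le]
  by_contra hlt
  push Not at hlt
  exact h (Pool.Agent.R831.Koszul.ex_of_isWeaklyRegular (X : Fin n → MvPolynomial (Fin n) K) rs
    h1 _ h2.toIsWeaklyRegular r hlt)

end depth

/-- **MP_805877_ag, Q1 (true).**  Variables `x_0, …, x_n`; `u ∋ x_0` and `v ∌ x_0` are squarefree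
monomials of degree `q ≥ 2`.  Then `depth (S ⧸ (L(u, v))) = q - 1` if and only if `w₀ ≥_lex v`. -/
theorem result (K : Type*) [Field K] (n q : ℕ) (hq : 2 ≤ q) (u v : Finset (Fin (n + 1)))
    (hu : u.card = q) (hv : v.card = q) (hu0 : 0 ∈ u) (hv0 : 0 ∉ v) :
    depthQuot (lexIdeal K q u v) = ((q - 1 : ℕ) : ℕ∞) ↔ LexGE (w0 u) v := by
  have hqn : q ≤ n := by
    have h1 : v ⊆ Finset.univ.erase 0 := by
      intro j hj
      rw [Finset.mem_erase]
      exact ⟨fun h => hv0 (h ▸ hj), Finset.mem_univ _⟩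
    have h2 := Finset.card_le_card h1
    rw [Finset.card_erase_of_mem (Finset.mem_univ _), Finset.card_univ, Fintype.card_fin, hv] at h2
    omega
  have hle : lexIdeal K q u v ≤
      Ideal.span (Set.range (X : Fin (n + 1) → MvPolynomial (Fin (n + 1)) K)) := by
    refine Ideal.span_le.mpr ?_
    rintro _ ⟨A, hA, -, -, rfl⟩
    obtain ⟨a, ha⟩ : A.Nonempty := by
      rw [← Finset.card_pos]; omega
    rw [sqMon, ← Finset.mul_prod_erase A _ ha]
    exact Ideal.mul_mem_right _ _ (Ideal.subset_span ⟨a, rfl⟩)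
  obtain ⟨p, rfl⟩ : ∃ p, q = p + 2 := ⟨q - 2, by omega⟩
  rw [lexGE_iff]
  constructor
  · intro h
    by_contra hcon
    push Not at hcon
    have h1 := le_depth (lexIdeal K (p + 2) u v) hle (p + 2) (by
      intro r hr
      rcases Nat.lt_or_ge (r + 1) (p + 2) with h2 | h2
      · exact ex_low h2 (by omega) u v
      · obtain rfl : r = p + 1 := by omega
        exact ex_top (by omega) u v hu0 hcon)
    rw [h, Nat.cast_le] at h1
    omega
  · intro h
    refine le_antisymm ?_ ?_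
    · exact depth_le _ (p + 1) (not_ex u v hu0 hu h)
    · refine le_depth _ hle (p + 2 - 1) ?_
      intro r hr
      exact ex_low (by omega) (by omega) u v

end Pool.Agent.Results.MP_805877_ag.LexDepth
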